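import Mathlib
import Pool.Agent.N178.HX.StmG

/-!
Project GHC3 (helper178, MP_90e98f_ag): `S_L3 → S_KCH → S_LOW`.
-/

set_option linter.unusedSectionVars false

namespace Pool.Agent.N475.HX

open Finset Module NumberField Pool.Agent.N178.HX
open Pool.Agent.H204R3.CM (IsCMType)
open Pool.Agent.W547.KB (CMPair)

noncomputable section

/-- complex conjugation as a ring automorphism -/
def cj : ℂ ≃+* ℂ := starRingAut

lemma cj_apply (x : ℂ) : cj x = (starRingEnd ℂ) x := rfl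

lemma sg_or (P : CMPair) (σ : ℂ ≃+* ℂ) (φ : P.E →+* ℂ) : sg P σ φ = 1 ∨ sg P σ φ = -1 := by
  unfold sg
  split_ifs
  · exact Or.inl rfl
  · exact Or.inr rfl

lemma sg_eq_one (P : CMPair) (σ : ℂ ≃+* ℂ) (φ : P.E →+* ℂ) :
    sg P σ φ = 1 ↔ (σ : ℂ →+* ℂ).comp φ ∈ P.Φ := by
  unfold sg
  split_ifs with h
  · exact ⟨fun _ => h, fun _ => rfl⟩
  · exact ⟨fun h' => absurd h' (by norm_num), fun h' => absurd h' h⟩

/-- the sign for the complex conjugate embedding -/
lemma sg_neg (P : CMPair) (σ τ : ℂ ≃+* ℂ) (φ ψ : P.E →+* ℂ)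
    (h : (τ : ℂ →+* ℂ).comp ψ = ComplexEmbedding.conjugate ((σ : ℂ →+* ℂ).comp φ)) :
    sg P τ ψ = -sg P σ φ := by
  unfold sg
  rw [h]
  by_cases h1 : (σ : ℂ →+* ℂ).comp φ ∈ P.Φ
  · rw [if_pos h1, if_neg ((P.isCMType _).1 h1)]
  · have h2 : ComplexEmbedding.conjugate ((σ : ℂ →+* ℂ).comp φ) ∈ P.Φ := by
      by_contra h3
      exact h1 ((P.isCMType _).2 h3)
    rw [if_neg h1, if_pos h2, neg_neg]

lemma sg_cj (P : CMPair) (σ : ℂ ≃+* ℂ) (φ : P.E →+* ℂ) :
    sg P (σ.trans cj) φ = -sg P σ φ :=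
  sg_neg P σ _ φ φ (RingHom.ext fun _ => rfl)

lemma comp_conj (P : CMPair) (σ : ℂ ≃+* ℂ) (φ : P.E →+* ℂ) :
    (σ : ℂ →+* ℂ).comp (ComplexEmbedding.conjugate φ) =
      ComplexEmbedding.conjugate ((σ : ℂ →+* ℂ).comp φ) := by
  ext x
  have h1 := IsCMField.complexEmbedding_complexConj P.E φ x
  have h2 := IsCMField.complexEmbedding_complexConj P.E ((σ : ℂ →+* ℂ).comp φ) x
  rw [ComplexEmbedding.conjugate_coe_eq, ← h2, RingHom.comp_apply, RingHom.comp_apply,
    ComplexEmbedding.conjugate_coe_eq, ← h1]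

lemma sg_conj (P : CMPair) (σ : ℂ ≃+* ℂ) (φ : P.E →+* ℂ) :
    sg P σ (ComplexEmbedding.conjugate φ) = -sg P σ φ :=
  sg_neg P σ σ φ _ (comp_conj P σ φ)

/-- the pairs `(k, φ)`, `φ` in the CM type -/
abbrev X {K : Type} (T : K → CMPair) (B : Finset K) : Type :=
  Σ k : {k // k ∈ B}, {φ : (T k.1).E →+* ℂ // φ ∈ (T k.1).Φ}

open Classical in
lemma card_phi (P : CMPair) :
    2 * Fintype.card {φ : P.E →+* ℂ // φ ∈ P.Φ} = finrank ℚ P.E := by
  have e : {φ : P.E →+* ℂ // φ ∈ P.Φ} ≃ {φ : P.E →+* ℂ // ¬ φ ∈ P.Φ} :=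
    { toFun := fun φ => ⟨ComplexEmbedding.conjugate φ.1, (P.isCMType _).1 φ.2⟩
      invFun := fun φ => ⟨ComplexEmbedding.conjugate φ.1, by
        by_contra h
        exact φ.2 ((P.isCMType _).2 h)⟩
      left_inv := fun φ => Subtype.ext (star_star φ.1)
      right_inv := fun φ => Subtype.ext (star_star φ.1) }
  rw [← Embeddings.card P.E ℂ,
    ← Fintype.card_congr (Equiv.sumCompl (fun φ : P.E →+* ℂ => φ ∈ P.Φ)), Fintype.card_sum,
    ← Fintype.card_congr e, two_mul]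

open Classical in
lemma card_X {K : Type} (T : K → CMPair) (B : Finset K)
    (h : ∑ k ∈ B, finrank ℚ (T k).E ≤ 6) : Fintype.card (X T B) ≤ 3 := by
  have h1 : 2 * Fintype.card (X T B) = ∑ k ∈ B, finrank ℚ (T k).E := by
    rw [Fintype.card_sigma, Finset.mul_sum, ← Finset.sum_coe_sort B]
    exact Finset.sum_congr rfl fun k _ => card_phi _
  omega

lemma exists_enum {α : Type} [Fintype α] [Nonempty α] (h : Fintype.card α ≤ 3) :
    ∃ f : Fin 3 → α, Function.Surjective f := by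
  have h1 : Fintype.card α ≤ Fintype.card (Fin 3) := by simpa using h
  obtain ⟨e⟩ := Function.Embedding.nonempty_of_card_le h1
  exact ⟨Function.invFun e, Function.invFun_surjective e.injective⟩

/-- the function of a pair -/
def fx {K : Type} (T : K → CMPair) (B : Finset K) (p : X T B) : (ℂ ≃+* ℂ) → ℤ :=
  fun σ => sg (T p.1.1) σ p.2.1

lemma mem_Fn {K : Type} (T : K → CMPair) (B : Finset K) (f : (ℂ ≃+* ℂ) → ℤ) :
    f ∈ Fn T (B : Set K) ↔ ∃ p : X T B, f = fx T B p ∨ f = -fx T B p := by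
  constructor
  · rintro ⟨k, hk, φ, rfl⟩
    by_cases h : φ ∈ (T k).Φ
    · exact ⟨⟨⟨k, hk⟩, ⟨φ, h⟩⟩, Or.inl rfl⟩
    · have h' : ComplexEmbedding.conjugate φ ∈ (T k).Φ := by
        by_contra h1
        exact h (((T k).isCMType _).2 h1)
      refine ⟨⟨⟨k, hk⟩, ⟨_, h'⟩⟩, Or.inr ?_⟩
      funext σ
      show sg (T k) σ φ = -sg (T k) σ (ComplexEmbedding.conjugate φ)
      rw [sg_conj, neg_neg]
  · rintro ⟨⟨⟨k, hk⟩, ⟨φ, h⟩⟩, rfl | rfl⟩
    · exact ⟨k, hk, φ, rfl⟩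
    · refine ⟨k, hk, ComplexEmbedding.conjugate φ, ?_⟩
      funext σ
      show -sg (T k) σ φ = sg (T k) σ (ComplexEmbedding.conjugate φ)
      rw [sg_conj]

lemma trans_symm_trans (τ ρ : ℂ ≃+* ℂ) : τ.trans (τ.symm.trans ρ) = ρ := by
  ext x
  simp

lemma all_emb (P : CMPair) (h2 : finrank ℚ P.E = 2) (φ0 φ : P.E →+* ℂ) :
    φ = φ0 ∨ φ = ComplexEmbedding.conjugate φ0 := by
  classical
  have hne : φ0 ≠ ComplexEmbedding.conjugate φ0 := by
    intro h
    have h1 := P.isCMType φ0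
    rw [← h] at h1
    by_cases h3 : φ0 ∈ P.Φ
    · exact h1.1 h3 h3
    · exact h3 (h1.2 h3)
  have h3 : ({φ0, ComplexEmbedding.conjugate φ0} : Finset (P.E →+* ℂ)) = Finset.univ := by
    apply Finset.eq_univ_of_card
    rw [Finset.card_pair hne, Embeddings.card P.E ℂ, h2]
  have h4 : φ ∈ ({φ0, ComplexEmbedding.conjugate φ0} : Finset (P.E →+* ℂ)) := by
    rw [h3]
    exact Finset.mem_univ _
  simpa using h4

theorem t_LOW : S_L3 → S_KCH → S_LOW := by
  intro hL3 hKCH K _ _ T B hB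
  classical
  by_cases hX : Nonempty (X T B)
  swap
  · left
    intro f hf N _
    have h0 : Fn T (B : Set K) = ∅ := by
      ext g
      rw [mem_Fn]
      constructor
      · rintro ⟨p, _⟩
        exact (hX ⟨p⟩).elim
      · intro h
        exact absurd h (Set.notMem_empty _)
    rw [h0, AddSubgroup.closure_empty, AddSubgroup.mem_bot] at hf
    exact ⟨[], by simp, by simp, by simp [hf]⟩
  obtain ⟨e, he⟩ := exists_enum (card_X T B hB)
  let f : Fin 3 → (ℂ ≃+* ℂ) → ℤ := fun i => fx T B (e i)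
  have hpm : pm f = Fn T (B : Set K) := by
    ext g
    rw [mem_Fn]
    constructor
    · rintro ⟨i, hi⟩
      exact ⟨e i, hi⟩
    · rintro ⟨p, hp⟩
      obtain ⟨i, rfl⟩ := he p
      exact ⟨i, hp⟩
  rcases hL3 (fun σ : ℂ ≃+* ℂ => σ.trans cj) f (fun i σ => sg_or _ _ _)
    (fun i σ => sg_cj _ _ _) with h | h
  · left
    rwa [hpm] at h
  right
  obtain ⟨s0, hs0, hv0, hu0, hne, hsp0⟩ := h
  -- normalisation
  obtain ⟨s, hs, hv, hu, hsp, h1⟩ : ∃ s : Fin 3 → ℤ, (∀ i, s i = 1 ∨ s i = -1) ∧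
      (∀ σ, ∑ i, s i * f i σ = 1 ∨ ∑ i, s i * f i σ = -1) ∧
      (∀ t : Fin 3 → ℤ, (∀ i, t i = 1 ∨ t i = -1) →
        (∀ σ, ∑ i, t i * f i σ = 1 ∨ ∑ i, t i * f i σ = -1) → t = s ∨ t = -s) ∧
      SPF (pm f ∪ {fun σ => ∑ i, s i * f i σ, fun σ => -∑ i, s i * f i σ}) ∧
      ∑ i, s i * f i (RingEquiv.refl ℂ) = 1 := by
    rcases hv0 (RingEquiv.refl ℂ) with h | h
    · exact ⟨s0, hs0, hv0, hu0, hsp0, h⟩
    · have hneg : ∀ σ, ∑ i, (-s0) i * f i σ = -∑ i, s0 i * f i σ := by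
        intro σ
        rw [← Finset.sum_neg_distrib]
        exact Finset.sum_congr rfl fun i _ => by rw [Pi.neg_apply, neg_mul]
      refine ⟨-s0, fun i => ?_, fun σ => ?_, fun t ht ht' => ?_, ?_, ?_⟩
      · rcases hs0 i with h | h
        · right
          rw [Pi.neg_apply, h]
        · left
          rw [Pi.neg_apply, h, neg_neg]
      · rw [hneg]
        rcases hv0 σ with h | h
        · right
          rw [h]
        · left
          rw [h, neg_neg]
      · rw [neg_neg]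
        exact (hu0 t ht ht').symm
      · simp only [hneg, neg_neg]
        rw [Set.pair_comm]
        exact hsp0
      · rw [hneg, h, neg_neg]
  set κ : (ℂ ≃+* ℂ) → ℤ := fun σ => ∑ i, s i * f i σ with hκ
  have hκv : ∀ σ, κ σ = 1 ∨ κ σ = -1 := hv
  have hκ1 : κ (RingEquiv.refl ℂ) = 1 := h1
  -- translates
  have htr : ∀ (τ : ℂ ≃+* ℂ) (i : Fin 3), ∃ (j : Fin 3) (ε : ℤ), (ε = 1 ∨ ε = -1) ∧
      ∀ σ, f i (τ.trans σ) = ε * f j σ := by
    intro τ i
    have hm : (fun σ : ℂ ≃+* ℂ => f i (τ.trans σ)) ∈ pm f := by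
      rw [hpm]
      exact ⟨(e i).1.1, (e i).1.2, (τ : ℂ →+* ℂ).comp (e i).2.1, rfl⟩
    obtain ⟨j, hj | hj⟩ := hm
    · exact ⟨j, 1, Or.inl rfl, fun σ => by rw [one_mul]; exact congrFun hj σ⟩
    · exact ⟨j, -1, Or.inr rfl, fun σ => by rw [neg_one_mul]; exact congrFun hj σ⟩
  have hκm : ∀ σ τ : ℂ ≃+* ℂ, κ (τ.trans σ) = κ σ * κ τ := by
    intro σ τ
    choose π ε hε hπ using htr τ
    have hinj : Function.Injective π := by
      intro i j hij
      by_contra hne'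
      have h2 : ∀ ρ, f i ρ = ε i * ε j * f j ρ := by
        intro ρ
        have h3 := hπ i (τ.symm.trans ρ)
        have h4 := hπ j (τ.symm.trans ρ)
        rw [trans_symm_trans] at h3 h4
        rw [← hij] at h4
        rw [h3, h4]
        rcases hε j with h5 | h5 <;> rw [h5] <;> ring
      rcases hε i with h5 | h5 <;> rcases hε j with h6 | h6 <;> rw [h5, h6] at h2
      · exact (hne i j hne').1 (funext fun ρ => by rw [h2]; ring)
      · exact (hne i j hne').2 (funext fun ρ => by rw [h2, Pi.neg_apply]; ring)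
      · exact (hne i j hne').2 (funext fun ρ => by rw [h2, Pi.neg_apply]; ring)
      · exact (hne i j hne').1 (funext fun ρ => by rw [h2]; ring)
    let πe : Fin 3 ≃ Fin 3 := Equiv.ofBijective π (Finite.injective_iff_bijective.1 hinj)
    let t : Fin 3 → ℤ := fun j => s (πe.symm j) * ε (πe.symm j)
    have ht : ∀ ρ, ∑ j, t j * f j ρ = κ (τ.trans ρ) := by
      intro ρ
      rw [← Equiv.sum_comp πe]
      refine Finset.sum_congr rfl fun i _ => ?_
      show s (πe.symm (πe i)) * ε (πe.symm (πe i)) * f (π i) ρ = s i * f i (τ.trans ρ)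
      rw [Equiv.symm_apply_apply, hπ i ρ, mul_assoc]
    have ht1 : ∀ j, t j = 1 ∨ t j = -1 := by
      intro j
      rcases hs (πe.symm j) with h5 | h5 <;> rcases hε (πe.symm j) with h6 | h6 <;>
        simp only [t, h5, h6] <;> norm_num
    rcases hu t ht1 (fun ρ => by rw [ht]; exact hκv _) with h7 | h7
    · have h8 : ∀ ρ, κ (τ.trans ρ) = κ ρ := fun ρ => by rw [← ht, h7]
      have h9 : κ τ = 1 := by
        have := h8 (RingEquiv.refl ℂ)
        rw [hκ1] at this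
        exact this
      rw [h8, h9, mul_one]
    · have h8 : ∀ ρ, κ (τ.trans ρ) = -κ ρ := fun ρ => by
        rw [← ht, h7, hκ, ← Finset.sum_neg_distrib]
        exact Finset.sum_congr rfl fun i _ => by rw [Pi.neg_apply, neg_mul]
      have h9 : κ τ = -1 := by
        have := h8 (RingEquiv.refl ℂ)
        rw [hκ1] at this
        exact this
      rw [h8, h9, mul_neg_one]
  have hκc : ∀ σ : ℂ ≃+* ℂ, (∀ x, σ x = (starRingEnd ℂ) x) → κ σ = -1 := by
    intro σ hσ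
    have h2 : σ = (RingEquiv.refl ℂ).trans cj := RingEquiv.ext fun x => by
      rw [hσ x]
      rfl
    rw [h2, ← hκ1, hκ]
    rw [← Finset.sum_neg_distrib]
    refine Finset.sum_congr rfl fun i _ => ?_
    have h3 : f i ((RingEquiv.refl ℂ).trans cj) = -f i (RingEquiv.refl ℂ) := sg_cj _ _ _
    rw [h3]
    ring
  have hfd : ∀ σ τ : ℂ ≃+* ℂ, (∀ k ∈ B, ∀ φ : (T k).E →+* ℂ,
      (σ : ℂ →+* ℂ).comp φ = (τ : ℂ →+* ℂ).comp φ) → κ σ = κ τ := by
    intro σ τ h
    refine Finset.sum_congr rfl fun i _ => ?_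
    have h2 : f i σ = f i τ := by
      show sg _ _ _ = sg _ _ _
      unfold sg
      rw [h _ (e i).1.2]
    rw [h2]
  obtain ⟨P, hP2, φ0, hφ0⟩ := hKCH (K := {k // k ∈ B}) (fun k => (T k.1).E) κ hκv hκm hκc
    (fun σ τ h => hfd σ τ fun k hk φ => h ⟨k, hk⟩ φ)
  refine ⟨P, hP2, ?_, ?_⟩
  · have h2 : Fn (fun _ : Unit => P) Set.univ = {κ, fun σ => -κ σ} := by
      ext g
      constructor
      · rintro ⟨_, _, φ, rfl⟩
        rcases all_emb P hP2 φ0 φ with h | h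
        · left
          rw [h]
          exact funext hφ0
        · right
          rw [h]
          exact funext fun σ => by rw [sg_conj, hφ0]
      · rintro (h | h)
        · exact ⟨(), Set.mem_univ _, φ0, by rw [h]; exact funext fun σ => (hφ0 σ).symm⟩
        · refine ⟨(), Set.mem_univ _, ComplexEmbedding.conjugate φ0, ?_⟩
          rw [Set.mem_singleton_iff.1 h]
          exact funext fun σ => by rw [sg_conj, hφ0]
    rw [h2, ← hpm]
    exact hsp
  · intro σ τ h φ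
    have h2 : sg P σ φ0 = sg P τ φ0 := by rw [hφ0, hφ0, hfd σ τ h]
    have h3 : (σ : ℂ →+* ℂ).comp φ0 = (τ : ℂ →+* ℂ).comp φ0 := by
      rcases all_emb P hP2 ((τ : ℂ →+* ℂ).comp φ0) ((σ : ℂ →+* ℂ).comp φ0) with h4 | h4
      · exact h4
      · exfalso
        have h5 : (σ : ℂ →+* ℂ).comp φ0 ∈ P.Φ ↔ (τ : ℂ →+* ℂ).comp φ0 ∈ P.Φ := by
          rw [← sg_eq_one, ← sg_eq_one, h2]
        have h6 := P.isCMType ((τ : ℂ →+* ℂ).comp φ0)
        rw [← h4, h5] at h6
        by_cases h7 : (τ : ℂ →+* ℂ).comp φ0 ∈ P.Φ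
        · exact h6.1 h7 h7
        · exact h7 (h6.2 h7)
    rcases all_emb P hP2 φ0 φ with h4 | h4
    · rw [h4, h3]
    · rw [h4, comp_conj, comp_conj, h3]

end

end Pool.Agent.N475.HX
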